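import Mathlib

set_option autoImplicit false

namespace Pool.Agent.Results.MP_7ad8d2_an.InverseNorm

open Matrix Finset

/-- Maximum absolute row sum. -/
noncomputable def infNorm {n : ℕ} (A : Matrix (Fin n) (Fin n) ℝ) : ℝ := ⨆ i, ∑ j, |A i j|

/-- Diagonal dominance of row `i`. -/
def dom {n : ℕ} (J : Matrix (Fin n) (Fin n) ℝ) (i : Fin n) : ℝ :=
  J i i - ∑ j ∈ univ.erase i, J i j

/-- The class of the question. -/
def Cls (n : ℕ) (m δ : ℝ) (J : Matrix (Fin n) (Fin n) ℝ) : Prop :=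
  J.IsSymm ∧ (∀ i j, 0 < J i j) ∧ (∀ i j, i ≠ j → J i j ≤ m) ∧
    ∀ i, 0 ≤ dom J i ∧ dom J i ≤ δ

/-- The matrix `α I + m 1 1ᵀ`. -/
def Smat (n : ℕ) (α m : ℝ) : Matrix (Fin n) (Fin n) ℝ :=
  α • (1 : Matrix (Fin n) (Fin n) ℝ) + m • Matrix.of (fun _ _ => (1 : ℝ))

section basic

variable {n : ℕ} {m δ : ℝ} {J : Matrix (Fin n) (Fin n) ℝ}

/-- Row sums. -/
def rho (J : Matrix (Fin n) (Fin n) ℝ) (i : Fin n) : ℝ := ∑ j, J i j

theorem rho_eq (J : Matrix (Fin n) (Fin n) ℝ) (i : Fin n) : rho J i = 2 * J i i - dom J i := by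
  unfold rho dom
  rw [← Finset.add_sum_erase univ (fun j => J i j) (mem_univ i)]
  ring

theorem quad_id (hs : J.IsSymm) (x : Fin n → ℝ) :
    2 * (x ⬝ᵥ (J *ᵥ x)) = 2 * ∑ i, dom J i * x i ^ 2 +
      ∑ i, ∑ j ∈ univ.erase i, J i j * (x i + x j) ^ 2 := by
  have h1 : ∑ i, ∑ j, J i j * (x i + x j) ^ 2 =
      2 * ∑ i, rho J i * x i ^ 2 + 2 * (x ⬝ᵥ (J *ᵥ x)) := by
    have e1 : ∑ i, ∑ j, J i j * (x i + x j) ^ 2 =
        ∑ i, ∑ j, J i j * x i ^ 2 + ∑ i, ∑ j, J i j * x j ^ 2 + 2 * ∑ i, ∑ j, J i j * x i * x j := by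
      rw [← Finset.sum_add_distrib, Finset.mul_sum, ← Finset.sum_add_distrib]
      apply Finset.sum_congr rfl; intro i _
      rw [← Finset.sum_add_distrib, Finset.mul_sum, ← Finset.sum_add_distrib]
      apply Finset.sum_congr rfl; intro j _
      ring
    have e2 : ∑ i, ∑ j, J i j * x j ^ 2 = ∑ i, ∑ j, J i j * x i ^ 2 := by
      rw [Finset.sum_comm]
      apply Finset.sum_congr rfl; intro i _
      apply Finset.sum_congr rfl; intro j _
      rw [hs.apply i j]
    have e3 : ∑ i, ∑ j, J i j * x i ^ 2 = ∑ i, rho J i * x i ^ 2 := by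
      apply Finset.sum_congr rfl; intro i _
      unfold rho
      rw [Finset.sum_mul]
    have e4 : ∑ i, ∑ j, J i j * x i * x j = x ⬝ᵥ (J *ᵥ x) := by
      simp only [dotProduct, mulVec]
      apply Finset.sum_congr rfl; intro i _
      rw [Finset.mul_sum]
      apply Finset.sum_congr rfl; intro j _
      ring
    rw [e1, e2, e3, e4]; ring
  have h2 : ∑ i, ∑ j, J i j * (x i + x j) ^ 2 =
      ∑ i, ∑ j ∈ univ.erase i, J i j * (x i + x j) ^ 2 + 4 * ∑ i, J i i * x i ^ 2 := by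
    rw [Finset.mul_sum, ← Finset.sum_add_distrib]
    apply Finset.sum_congr rfl; intro i _
    rw [← Finset.add_sum_erase univ (fun j => J i j * (x i + x j) ^ 2) (mem_univ i)]
    ring
  have h3 : ∑ i, rho J i * x i ^ 2 = 2 * ∑ i, J i i * x i ^ 2 - ∑ i, dom J i * x i ^ 2 := by
    rw [Finset.mul_sum, ← Finset.sum_sub_distrib]
    apply Finset.sum_congr rfl; intro i _
    rw [rho_eq]; ring
  rw [h2, h3] at h1
  linarith

theorem quad_nonneg (hJ : Cls n m δ J) (x : Fin n → ℝ) : 0 ≤ x ⬝ᵥ (J *ᵥ x) := by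
  have h := quad_id hJ.1 x
  have h1 : 0 ≤ ∑ i, dom J i * x i ^ 2 :=
    Finset.sum_nonneg (fun i _ => mul_nonneg (hJ.2.2.2 i).1 (sq_nonneg _))
  have h2 : 0 ≤ ∑ i, ∑ j ∈ univ.erase i, J i j * (x i + x j) ^ 2 :=
    Finset.sum_nonneg (fun i _ => Finset.sum_nonneg
      (fun j _ => mul_nonneg (hJ.2.1 i j).le (sq_nonneg _)))
  linarith

theorem quad_pos (hn : 3 ≤ n) (hJ : Cls n m δ J) (x : Fin n → ℝ) (hx : x ≠ 0) :
    0 < x ⬝ᵥ (J *ᵥ x) := by
  rcases (quad_nonneg hJ x).lt_or_eq with h | h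
  · exact h
  exfalso
  have hid := quad_id hJ.1 x
  have h1 : 0 ≤ ∑ i, dom J i * x i ^ 2 :=
    Finset.sum_nonneg (fun i _ => mul_nonneg (hJ.2.2.2 i).1 (sq_nonneg _))
  have h2' : ∀ i ∈ (univ : Finset (Fin n)), 0 ≤ ∑ j ∈ univ.erase i, J i j * (x i + x j) ^ 2 :=
    fun i _ => Finset.sum_nonneg (fun j _ => mul_nonneg (hJ.2.1 i j).le (sq_nonneg _))
  have h2 := Finset.sum_nonneg h2'
  have h3 : ∑ i, ∑ j ∈ univ.erase i, J i j * (x i + x j) ^ 2 = 0 := by linarith
  have h4 := (Finset.sum_eq_zero_iff_of_nonneg h2').mp h3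
  have h5 : ∀ i j, i ≠ j → x i = - x j := by
    intro i j hij
    have h6 := (Finset.sum_eq_zero_iff_of_nonneg
      (fun j _ => mul_nonneg (hJ.2.1 i j).le (sq_nonneg (x i + x j)))).mp (h4 i (mem_univ i)) j
      (Finset.mem_erase.mpr ⟨hij.symm, mem_univ j⟩)
    have h7 : (x i + x j) ^ 2 = 0 := by
      rcases mul_eq_zero.mp h6 with h | h
      · exact absurd h (hJ.2.1 i j).ne'
      · exact h
    have h8 : x i + x j = 0 := by simpa using h7
    linarith
  apply hx
  funext i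
  have : ∃ j k : Fin n, i ≠ j ∧ j ≠ k ∧ i ≠ k := by
    have hc : 2 < Fintype.card (Fin n) := by rw [Fintype.card_fin]; omega
    obtain ⟨a, b, c, hab, hac, hbc⟩ := Fintype.two_lt_card_iff.mp hc
    by_cases h1 : i = a
    · subst h1; exact ⟨b, c, hab, hbc, hac⟩
    · by_cases h2 : i = b
      · subst h2; exact ⟨a, c, h1, hac, hbc⟩
      · exact ⟨a, b, h1, hab, h2⟩
  obtain ⟨j, k, hij, hjk, hik⟩ := this
  have a1 := h5 i j hij
  have a2 := h5 j k hjk
  have a3 := h5 i k hik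
  show x i = 0
  linarith

theorem isUnit_det (hn : 3 ≤ n) (hJ : Cls n m δ J) : IsUnit J.det := by
  rw [isUnit_iff_ne_zero]
  intro h0
  obtain ⟨v, hv, hJv⟩ := Matrix.exists_mulVec_eq_zero_iff.mpr h0
  have := quad_pos hn hJ v hv
  rw [hJv] at this
  simp at this

theorem inv_symm (hJ : Cls n m δ J) (i j : Fin n) : J⁻¹ i j = J⁻¹ j i := by
  have h : (J⁻¹)ᵀ = J⁻¹ := by rw [Matrix.transpose_nonsing_inv, hJ.1.eq]
  calc J⁻¹ i j = (J⁻¹)ᵀ j i := rfl
    _ = J⁻¹ j i := by rw [h]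

/-- The `i`-th column of the inverse. -/
noncomputable def col (J : Matrix (Fin n) (Fin n) ℝ) (i : Fin n) : Fin n → ℝ := fun j => J⁻¹ j i

theorem mul_col (hn : 3 ≤ n) (hJ : Cls n m δ J) (i : Fin n) : J *ᵥ col J i = Pi.single i 1 := by
  have h := Matrix.mul_nonsing_inv J (isUnit_det hn hJ)
  funext k
  have h1 := congrFun (congrFun h k) i
  rw [Matrix.mul_apply] at h1
  show ∑ j, J k j * J⁻¹ j i = _
  rw [h1, Matrix.one_apply, Pi.single_apply]

theorem bil_symm (hs : J.IsSymm) (x y : Fin n → ℝ) : x ⬝ᵥ (J *ᵥ y) = y ⬝ᵥ (J *ᵥ x) := by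
  rw [dotProduct_mulVec, ← mulVec_transpose, hs.eq, dotProduct_comm]

theorem inv_diag_pos (hn : 3 ≤ n) (hJ : Cls n m δ J) (i : Fin n) : 0 < J⁻¹ i i := by
  have h1 : col J i ≠ 0 := by
    intro h
    have := mul_col hn hJ i
    rw [h, mulVec_zero] at this
    have := congrFun this i
    simp at this
  have h2 := quad_pos hn hJ _ h1
  rw [mul_col hn hJ i] at h2
  simpa [col] using h2

/-- Cauchy-Schwarz. -/
theorem cs (hn : 3 ≤ n) (hJ : Cls n m δ J) (i : Fin n) (x : Fin n → ℝ) :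
    x i ^ 2 ≤ J⁻¹ i i * (x ⬝ᵥ (J *ᵥ x)) := by
  have hp := inv_diag_pos hn hJ i
  set s : ℝ := x i / J⁻¹ i i with hs
  have h := quad_nonneg hJ (x - s • col J i)
  rw [mulVec_sub, mulVec_smul, mul_col hn hJ i, sub_dotProduct, dotProduct_sub, dotProduct_sub,
    dotProduct_smul, smul_dotProduct, smul_dotProduct, dotProduct_smul,
    bil_symm hJ.1 (col J i) x, mul_col hn hJ i] at h
  simp only [dotProduct_single, mul_one, smul_eq_mul] at h
  have hc : col J i i = J⁻¹ i i := rfl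
  rw [hc] at h
  have h2 : s * J⁻¹ i i = x i := by rw [hs]; field_simp
  rw [h2] at h
  have h3 : 0 ≤ x ⬝ᵥ (J *ᵥ x) - s * x i := by linarith
  have h4 : J⁻¹ i i * (s * x i) = x i ^ 2 := by
    calc J⁻¹ i i * (s * x i) = (s * J⁻¹ i i) * x i := by ring
      _ = x i ^ 2 := by rw [h2]; ring
  nlinarith

/-- Test vector `e_i - u 1`. -/
theorem cs_one (hn : 3 ≤ n) (hJ : Cls n m δ J) (i : Fin n) (u : ℝ) :
    (1 - u) ^ 2 ≤ J⁻¹ i i * (J i i - 2 * u * rho J i + u ^ 2 * ∑ k, rho J k) := by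
  have h := cs hn hJ i (Pi.single i 1 - u • (fun _ => (1 : ℝ)))
  have h1 : J *ᵥ (fun _ => (1 : ℝ)) = rho J := by
    funext k; simp [mulVec, dotProduct, rho]
  have h2 : (Pi.single i (1 : ℝ)) ⬝ᵥ (J *ᵥ (Pi.single i 1)) = J i i := by simp
  have h3 : (Pi.single i (1 : ℝ)) ⬝ᵥ (J *ᵥ (fun _ => (1 : ℝ))) = rho J i := by rw [h1]; simp
  have h4 : (fun _ => (1 : ℝ)) ⬝ᵥ (J *ᵥ (Pi.single i 1)) = rho J i := by
    rw [bil_symm hJ.1]; exact h3
  have h5 : (fun _ => (1 : ℝ)) ⬝ᵥ (J *ᵥ (fun _ => (1 : ℝ))) = ∑ k, rho J k := by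
    rw [h1]; simp [dotProduct]
  rw [mulVec_sub, mulVec_smul, sub_dotProduct, dotProduct_sub, dotProduct_sub, dotProduct_smul,
    smul_dotProduct, smul_dotProduct, dotProduct_smul, h2, h3, h4, h5] at h
  simp only [Pi.sub_apply, Pi.single_eq_same, Pi.smul_apply, smul_eq_mul, mul_one] at h
  nlinarith

theorem sum_rho_inv (hn : 3 ≤ n) (hJ : Cls n m δ J) :
    ∑ i, rho J i * ∑ j, J⁻¹ i j = n := by
  have h := Matrix.nonsing_inv_mul J (isUnit_det hn hJ)
  have h1 : ∀ j, ∑ i, J⁻¹ j i * rho J i = 1 := by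
    intro j
    unfold rho
    have : ∑ i, J⁻¹ j i * ∑ k, J i k = ∑ k, ∑ i, J⁻¹ j i * J i k := by
      rw [Finset.sum_comm]
      apply Finset.sum_congr rfl; intro i _
      rw [Finset.mul_sum]
    rw [this]
    have : ∀ k, ∑ i, J⁻¹ j i * J i k = (1 : Matrix (Fin n) (Fin n) ℝ) j k := by
      intro k
      rw [← h, Matrix.mul_apply]
    simp only [this]
    simp [Matrix.one_apply]
  calc ∑ i, rho J i * ∑ j, J⁻¹ i j = ∑ j, ∑ i, J⁻¹ j i * rho J i := by
        rw [Finset.sum_comm]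
        apply Finset.sum_congr rfl; intro i _
        rw [Finset.mul_sum]
        apply Finset.sum_congr rfl; intro j _
        rw [inv_symm hJ i j]; ring
    _ = ∑ j : Fin n, (1 : ℝ) := by apply Finset.sum_congr rfl; intro j _; exact h1 j
    _ = n := by simp

theorem row_le (A : Matrix (Fin n) (Fin n) ℝ) (i : Fin n) : ∑ j, |A i j| ≤ infNorm A :=
  le_ciSup (Set.finite_range (fun i => ∑ j, |A i j|)).bddAbove i

theorem row_ge (A : Matrix (Fin n) (Fin n) ℝ) (i : Fin n) :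
    2 * A i i - ∑ j, A i j ≤ infNorm A := by
  refine le_trans ?_ (row_le A i)
  rw [← Finset.add_sum_erase univ (fun j => A i j) (mem_univ i),
    ← Finset.add_sum_erase univ (fun j => |A i j|) (mem_univ i)]
  have h1 : A i i ≤ |A i i| := le_abs_self _
  have h2 : - ∑ j ∈ univ.erase i, A i j ≤ ∑ j ∈ univ.erase i, |A i j| := by
    rw [← Finset.sum_neg_distrib]
    exact Finset.sum_le_sum (fun j _ => neg_le_abs _)
  linarith

theorem off_le (hn : 3 ≤ n) (hJ : Cls n m δ J) (i : Fin n) :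
    ∑ j ∈ univ.erase i, J i j ≤ m * (n - 1) := by
  have h : ∑ j ∈ univ.erase i, J i j ≤ ∑ j ∈ univ.erase i, m :=
    Finset.sum_le_sum (fun j hj => hJ.2.2.1 i j (Finset.ne_of_mem_erase hj).symm)
  rw [Finset.sum_const, Finset.card_erase_of_mem (mem_univ i), Finset.card_univ, Fintype.card_fin,
    nsmul_eq_mul, Nat.cast_sub (by omega)] at h
  push_cast at h
  linarith

theorem off_pos (hn : 3 ≤ n) (hJ : Cls n m δ J) (i : Fin n) :
    0 < ∑ j ∈ univ.erase i, J i j := by
  apply Finset.sum_pos (fun j _ => hJ.2.1 i j)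
  rw [← Finset.card_pos, Finset.card_erase_of_mem (mem_univ i), Finset.card_univ,
    Fintype.card_fin]
  omega

theorem eq_S (hn : 3 ≤ n) (hJ : Cls n m δ J) (h : ∀ i, rho J i = 2 * (m * (n - 1)) + δ) :
    J = Smat n (m * (n - 2) + δ) m := by
  have h1 : ∀ i, ∑ j ∈ univ.erase i, J i j = m * (n - 1) ∧ dom J i = δ := by
    intro i
    have a1 := off_le hn hJ i
    have a2 := (hJ.2.2.2 i).2
    have a3 := h i
    rw [rho_eq] at a3
    have a4 : dom J i = J i i - ∑ j ∈ univ.erase i, J i j := rfl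
    constructor <;> linarith
  have h2 : ∀ i j, i ≠ j → J i j = m := by
    intro i j hij
    have a1 := (h1 i).1
    have a2 : ∑ j ∈ univ.erase i, (m - J i j) = 0 := by
      rw [Finset.sum_sub_distrib, a1, Finset.sum_const, Finset.card_erase_of_mem (mem_univ i),
        Finset.card_univ, Fintype.card_fin, nsmul_eq_mul, Nat.cast_sub (by omega)]
      push_cast; ring
    have a3 := (Finset.sum_eq_zero_iff_of_nonneg (fun j hj => sub_nonneg.mpr
      (hJ.2.2.1 i j (Finset.ne_of_mem_erase hj).symm))).mp a2 j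
      (Finset.mem_erase.mpr ⟨hij.symm, mem_univ j⟩)
    linarith
  ext i j
  unfold Smat
  rw [Matrix.add_apply, Matrix.smul_apply, Matrix.smul_apply, Matrix.one_apply, Matrix.of_apply]
  by_cases hij : i = j
  · subst hij
    have a4 : dom J i = J i i - ∑ j ∈ univ.erase i, J i j := rfl
    rw [(h1 i).1, (h1 i).2] at a4
    rw [if_pos rfl]
    simp only [smul_eq_mul, mul_one]
    linarith
  · rw [if_neg hij, h2 i j hij]; simp

end basic

/-- The polynomial inequality for `n ≥ 4`. -/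
theorem poly {n m δ ρ a L : ℝ} (hn : 4 ≤ n) (hm : 0 < m) (hδ : 0 ≤ δ)
    (hL : L * ((m * (n - 2) + δ) * (2 * (m * (n - 1)) + δ)) =
      m * (n - 2) + δ + 2 * (m * (n - 1))) (hL0 : 0 < L)
    (hρ0 : 0 < ρ) (hρ : ρ ≤ 2 * (m * (n - 1)) + δ) (h2 : 2 * a ≤ ρ + δ) (h3 : a ≤ ρ) :
    (1 + L * ρ) * (a * (n * (2 * (m * (n - 1)) + δ)) - ρ ^ 2) ≤
      2 * ρ * (n * (2 * (m * (n - 1)) + δ) - 2 * ρ + a) ∧
    (ρ < 2 * (m * (n - 1)) + δ →
    (1 + L * ρ) * (a * (n * (2 * (m * (n - 1)) + δ)) - ρ ^ 2) <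
      2 * ρ * (n * (2 * (m * (n - 1)) + δ) - 2 * ρ + a)) := by
  set R : ℝ := 2 * (m * (n - 1)) + δ with hR
  have hmn : 0 < m * (n - 1) := mul_pos hm (by linarith)
  have hmn2 : 0 < m * (n - 2) := mul_pos hm (by linarith)
  have hRpos : 0 < R := by rw [hR]; linarith
  have hα : 0 < m * (n - 2) + δ := by linarith
  have hLρ : 0 < L * ρ := mul_pos hL0 hρ0
  have hnR : 4 * R ≤ n * R := by nlinarith
  have hcoef : 0 < (1 + L * ρ) * (n * R) - 2 * ρ := by
    have : n * R ≤ (1 + L * ρ) * (n * R) := by nlinarith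
    linarith
  have hLR : 1 < L * R := by
    have h5 : (L * R) * (m * (n - 2) + δ) = (m * (n - 2) + δ) + 2 * (m * (n - 1)) := by
      rw [← hL]; ring
    by_contra hc
    push Not at hc
    have : (L * R) * (m * (n - 2) + δ) ≤ 1 * (m * (n - 2) + δ) :=
      mul_le_mul_of_nonneg_right hc hα.le
    linarith
  by_cases hc : δ ≤ ρ
  · -- main case
    have hQ : n * (ρ - δ) + 2 * L * ρ * (R - ρ) ≤
        -2 * L * ρ ^ 2 + (4 + (n - 2) * (L * R)) * ρ - n * δ := by
      have : 0 ≤ (n - 4) * (L * R - 1) * ρ :=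
        mul_nonneg (mul_nonneg (by linarith) (by linarith)) hρ0.le
      nlinarith
    have hid : 2 * ρ * (n * R - 2 * ρ + a) - (1 + L * ρ) * (a * (n * R) - ρ ^ 2) =
        (R - ρ) / 2 * (-2 * L * ρ ^ 2 + (4 + (n - 2) * (L * R)) * ρ - n * δ) +
        (ρ + δ - 2 * a) / 2 * ((1 + L * ρ) * (n * R) - 2 * ρ) := by
      have hkey : L * R * ((n - 2) * R + n * δ) = (3 * n - 4) * R - (n - 2) * δ := by
        have : (n - 2) * R + n * δ = 2 * (n - 1) * (m * (n - 2) + δ) := by rw [hR]; ring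
        rw [this]
        have : L * R * (2 * (n - 1) * (m * (n - 2) + δ)) =
          2 * (n - 1) * (L * ((m * (n - 2) + δ) * R)) := by ring
        rw [this, hL, hR]; ring
      linear_combination (-(ρ / 2)) * hkey
    have hP1 : 0 ≤ (ρ + δ - 2 * a) / 2 * ((1 + L * ρ) * (n * R) - 2 * ρ) :=
      mul_nonneg (by linarith) hcoef.le
    have hn0 : 0 ≤ n * (ρ - δ) := mul_nonneg (by linarith) (by linarith)
    constructor
    · have h6 : 0 ≤ 2 * L * ρ * (R - ρ) := mul_nonneg (by positivity) (by linarith)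
      have hP2 : 0 ≤ (R - ρ) / 2 *
          (-2 * L * ρ ^ 2 + (4 + (n - 2) * (L * R)) * ρ - n * δ) :=
        mul_nonneg (by linarith) (by linarith)
      linarith
    · intro hlt
      have h6 : 0 < 2 * L * ρ * (R - ρ) := mul_pos (by positivity) (by linarith)
      have hP2 : 0 < (R - ρ) / 2 *
          (-2 * L * ρ ^ 2 + (4 + (n - 2) * (L * R)) * ρ - n * δ) :=
        mul_pos (by linarith) (by linarith)
      linarith
  · push Not at hc
    have hLδ : L * ρ < 1 := by
      have h7 : L * δ < 1 := by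
        by_contra hcc
        push Not at hcc
        have h8 : (L * δ) * ((m * (n - 2) + δ) * R) = δ * (m * (n - 2) + δ + 2 * (m * (n - 1))) := by
          rw [← hL]; ring
        have h9 : 1 * ((m * (n - 2) + δ) * R) ≤ (L * δ) * ((m * (n - 2) + δ) * R) :=
          mul_le_mul_of_nonneg_right hcc (by positivity)
        rw [h8, hR] at h9
        nlinarith
      have : L * ρ ≤ L * δ := mul_le_mul_of_nonneg_left hc.le hL0.le
      linarith
    have hid : 2 * ρ * (n * R - 2 * ρ + a) - (1 + L * ρ) * (a * (n * R) - ρ ^ 2) =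
        ρ * (n * R - ρ) * (1 - L * ρ) + (ρ - a) * ((1 + L * ρ) * (n * R) - 2 * ρ) := by
      ring
    have hP1 : 0 ≤ (ρ - a) * ((1 + L * ρ) * (n * R) - 2 * ρ) :=
      mul_nonneg (by linarith) hcoef.le
    have hP2 : 0 < ρ * (n * R - ρ) * (1 - L * ρ) :=
      mul_pos (mul_pos hρ0 (by linarith)) (by linarith)
    constructor
    · linarith
    · intro _; linarith

section main

variable {n : ℕ} {m δ : ℝ} {J : Matrix (Fin n) (Fin n) ℝ}

/-- The value. -/
noncomputable def Lval (n : ℕ) (m δ : ℝ) : ℝ :=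
  (m * (n - 2) + δ + 2 * m * (n - 1)) / ((m * (n - 2) + δ) * (m * (n - 2) + δ + m * n))

theorem Lval_mul (hn : 3 ≤ n) (hm : 0 < m) (hδ : 0 ≤ δ) :
    Lval n m δ * ((m * (n - 2) + δ) * (2 * (m * (n - 1)) + δ)) =
      m * (n - 2) + δ + 2 * (m * (n - 1)) := by
  have hn' : (3 : ℝ) ≤ n := by exact_mod_cast hn
  have h1 : 0 < m * ((n : ℝ) - 2) + δ := by nlinarith
  have h2 : 0 < m * ((n : ℝ) - 2) + δ + m * n := by nlinarith
  unfold Lval
  have : 2 * (m * ((n : ℝ) - 1)) + δ = m * (n - 2) + δ + m * n := by ring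
  rw [this, div_mul_cancel₀ _ (mul_pos h1 h2).ne']
  ring

theorem Lval_pos (hn : 3 ≤ n) (hm : 0 < m) (hδ : 0 ≤ δ) : 0 < Lval n m δ := by
  have hn' : (3 : ℝ) ≤ n := by exact_mod_cast hn
  have h1 : 0 < m * ((n : ℝ) - 2) + δ := by nlinarith
  have h2 : 0 < m * ((n : ℝ) - 2) + δ + m * n := by nlinarith
  have h3 : 0 < m * ((n : ℝ) - 2) + δ + 2 * m * (n - 1) := by nlinarith
  exact div_pos h3 (mul_pos h1 h2)

theorem diag_bound (hn : 4 ≤ n) (hm : 0 < m) (hδ : 0 ≤ δ) (hJ : Cls n m δ J) (i : Fin n) :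
    1 + Lval n m δ * rho J i ≤ 2 * rho J i * J⁻¹ i i ∧
    (rho J i < 2 * (m * (n - 1)) + δ →
      1 + Lval n m δ * rho J i < 2 * rho J i * J⁻¹ i i) := by
  have hn3 : 3 ≤ n := by omega
  have hn' : (4 : ℝ) ≤ n := by exact_mod_cast hn
  have hoff := off_le hn3 hJ i
  have hoffp := off_pos hn3 hJ i
  have hdom := hJ.2.2.2 i
  have hdd : dom J i = J i i - ∑ j ∈ univ.erase i, J i j := rfl
  have hre := rho_eq J i
  have hrho : ∀ k, rho J k ≤ 2 * (m * (n - 1)) + δ := by
    intro k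
    have a1 := off_le hn3 hJ k
    have a2 := hJ.2.2.2 k
    have a3 : dom J k = J k k - ∑ j ∈ univ.erase k, J k j := rfl
    rw [rho_eq]; linarith [a2.2]
  have hrp : 0 < rho J i := by linarith [hdom.1]
  have hT : ∑ k, rho J k ≤ n * (2 * (m * (n - 1)) + δ) := by
    calc ∑ k, rho J k ≤ ∑ k : Fin n, (2 * (m * (n - 1)) + δ) :=
          Finset.sum_le_sum (fun k _ => hrho k)
      _ = n * (2 * (m * (n - 1)) + δ) := by
          rw [Finset.sum_const, Finset.card_univ, Fintype.card_fin, nsmul_eq_mul]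
  have hL := Lval_mul hn3 hm hδ
  have hL0 := Lval_pos hn3 hm hδ
  have hp := poly hn' hm hδ hL hL0 hrp (hrho i) (a := J i i) (by linarith [hdom.2])
    (by linarith [hdom.1])
  set R : ℝ := 2 * (m * (n - 1)) + δ with hR
  set T : ℝ := n * R with hTd
  set a : ℝ := J i i with ha
  set ρ : ℝ := rho J i with hρd
  set L : ℝ := Lval n m δ with hLd
  have hRρ := hrho i
  have hT4 : 4 * ρ ≤ T := by
    have : 4 * ρ ≤ 4 * R := by linarith
    have h5 : 4 * R ≤ n * R := mul_le_mul_of_nonneg_right hn' (by linarith)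
    linarith
  have hTρ : 0 < T - ρ := by linarith
  have ha2 : ρ ≤ 2 * a := by linarith [hdom.1]
  have haT : 0 < a * T - ρ ^ 2 := by nlinarith
  have hTa : 0 < T - 2 * ρ + a := by linarith
  have hK : 0 < J⁻¹ i i := inv_diag_pos hn3 hJ i
  set u : ℝ := (ρ - a) / (T - ρ) with hu
  have hcs := cs_one hn3 hJ i u
  have hcs2 : (1 - u) ^ 2 ≤ J⁻¹ i i * (a - 2 * u * ρ + u ^ 2 * T) := by
    refine le_trans hcs (mul_le_mul_of_nonneg_left ?_ hK.le)
    have : u ^ 2 * ∑ k, rho J k ≤ u ^ 2 * T := mul_le_mul_of_nonneg_left hT (sq_nonneg _)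
    linarith
  have e1 : (1 - u) ^ 2 = (T - 2 * ρ + a) ^ 2 / (T - ρ) ^ 2 := by
    rw [hu]; field_simp; ring
  have e2 : a - 2 * u * ρ + u ^ 2 * T =
      (T - 2 * ρ + a) * (a * T - ρ ^ 2) / (T - ρ) ^ 2 := by
    rw [hu]; field_simp; ring
  rw [e1, e2, ← mul_div_assoc, div_le_div_iff_of_pos_right (by positivity)] at hcs2
  have hfin : T - 2 * ρ + a ≤ J⁻¹ i i * (a * T - ρ ^ 2) := by
    have : (T - 2 * ρ + a) * (T - 2 * ρ + a) ≤
        (T - 2 * ρ + a) * (J⁻¹ i i * (a * T - ρ ^ 2)) := by nlinarith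
    exact le_of_mul_le_mul_left this hTa
  have hfin2 : 2 * ρ * (T - 2 * ρ + a) ≤ (2 * ρ * J⁻¹ i i) * (a * T - ρ ^ 2) := by
    have := mul_le_mul_of_nonneg_left hfin (show 0 ≤ 2 * ρ by linarith)
    linarith
  constructor
  · exact le_of_mul_le_mul_right (le_trans hp.1 hfin2) haT
  · intro hlt
    exact lt_of_mul_lt_mul_right (lt_of_lt_of_le (hp.2 hlt) hfin2) haT.le

theorem main_four (hn : 4 ≤ n) (hm : 0 < m) (hδ : 0 ≤ δ) (hJ : Cls n m δ J) :
    Lval n m δ ≤ infNorm J⁻¹ ∧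
      (infNorm J⁻¹ = Lval n m δ → J = Smat n (m * (n - 2) + δ) m) := by
  have hn3 : 3 ≤ n := by omega
  have hrp : ∀ i, 0 < rho J i := by
    intro i
    have a1 := off_pos hn3 hJ i
    have a2 := hJ.2.2.2 i
    have a3 : dom J i = J i i - ∑ j ∈ univ.erase i, J i j := rfl
    rw [rho_eq]; linarith [a2.1]
  have hrho : ∀ k, rho J k ≤ 2 * (m * (n - 1)) + δ := by
    intro k
    have a1 := off_le hn3 hJ k
    have a2 := hJ.2.2.2 k
    have a3 : dom J k = J k k - ∑ j ∈ univ.erase k, J k j := rfl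
    rw [rho_eq]; linarith [a2.2]
  have hTp : 0 < ∑ k, rho J k := Finset.sum_pos (fun k _ => hrp k)
    ⟨⟨0, by omega⟩, mem_univ _⟩
  have key : ∑ i, rho J i * (2 * J⁻¹ i i - ∑ j, J⁻¹ i j) ≤ infNorm J⁻¹ * ∑ k, rho J k := by
    rw [Finset.mul_sum]
    apply Finset.sum_le_sum; intro i _
    have := mul_le_mul_of_nonneg_left (row_ge J⁻¹ i) (hrp i).le
    linarith
  have e1 : ∑ i, rho J i * (2 * J⁻¹ i i - ∑ j, J⁻¹ i j) =
      ∑ i, 2 * rho J i * J⁻¹ i i - n := by
    rw [← sum_rho_inv hn3 hJ, ← Finset.sum_sub_distrib]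
    apply Finset.sum_congr rfl; intro i _; ring
  have e2 : ∑ i, (1 + Lval n m δ * rho J i) = n + Lval n m δ * ∑ k, rho J k := by
    rw [Finset.sum_add_distrib, Finset.mul_sum]; simp
  constructor
  · have h1 : ∑ i, (1 + Lval n m δ * rho J i) ≤ ∑ i, 2 * rho J i * J⁻¹ i i :=
      Finset.sum_le_sum (fun i _ => (diag_bound hn hm hδ hJ i).1)
    have h2 : Lval n m δ * ∑ k, rho J k ≤ infNorm J⁻¹ * ∑ k, rho J k := by linarith
    exact le_of_mul_le_mul_right h2 hTp
  · intro heq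
    apply eq_S hn3 hJ
    intro i
    by_contra hne
    have hlt : rho J i < 2 * (m * (n - 1)) + δ := lt_of_le_of_ne (hrho i) hne
    have h1 : ∑ i, (1 + Lval n m δ * rho J i) < ∑ i, 2 * rho J i * J⁻¹ i i :=
      Finset.sum_lt_sum (fun i _ => (diag_bound hn hm hδ hJ i).1)
        ⟨i, mem_univ i, (diag_bound hn hm hδ hJ i).2 hlt⟩
    rw [heq] at key
    linarith

/-- The test vector for `n = 3`. -/
theorem test_vec (hn : 3 ≤ n) (hJ : Cls n m δ J) (i : Fin n) (y : Fin n → ℝ) (hy : y i = 1) :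
    1 = ∑ l, J⁻¹ i l * (J *ᵥ y) l := by
  have h := Matrix.nonsing_inv_mul J (isUnit_det hn hJ)
  have : J⁻¹ *ᵥ (J *ᵥ y) = y := by rw [mulVec_mulVec, h, one_mulVec]
  have h1 := congrFun this i
  rw [hy] at h1
  rw [← h1]; rfl

end main

theorem main_three {m δ : ℝ} {J : Matrix (Fin 3) (Fin 3) ℝ} (hm : 0 < m) (hδ : 0 ≤ δ)
    (hJ : Cls 3 m δ J) (i j k : Fin 3) (hij : i ≠ j) (hjk : j ≠ k) (hik : i ≠ k)
    (h1 : J j k ≤ J i j) (h2 : J j k ≤ J i k) :
    Lval 3 m δ ≤ infNorm J⁻¹ ∧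
      (infNorm J⁻¹ = Lval 3 m δ → J = Smat 3 (m * ((3 : ℕ) - 2) + δ) m) := by
  have huniv' : ∀ i j k : Fin 3, i ≠ j → j ≠ k → i ≠ k →
      (univ : Finset (Fin 3)) = {i, j, k} := by decide
  have huniv := huniv' i j k hij hjk hik
  have hsum : ∀ f : Fin 3 → ℝ, ∑ l, f l = f i + f j + f k := by
    intro f
    rw [huniv, Finset.sum_insert (by simp [hij, hik]), Finset.sum_insert (by simp [hjk]),
      Finset.sum_singleton]
    ring
  have hL := Lval_mul (n := 3) le_rfl hm hδ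
  have hL0 := Lval_pos (n := 3) le_rfl hm hδ
  push_cast at hL
  set L := Lval 3 m δ with hLd
  have hD : 0 < 5 * m + δ := by linarith
  have hLD : L * ((m + δ) * (4 * m + δ)) = 5 * m + δ := by linarith
  have hs := hJ.1
  have hp := hJ.2.1
  have hle := hJ.2.2.1
  have domi : dom J i = J i i - (J i j + J i k) := by
    have := rho_eq J i
    unfold rho at this
    rw [hsum] at this; linarith
  have domj : dom J j = J j j - (J i j + J j k) := by
    have := rho_eq J j
    unfold rho at this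
    rw [hsum, hs.apply i j] at this; linarith
  have domk : dom J k = J k k - (J i k + J j k) := by
    have := rho_eq J k
    unfold rho at this
    rw [hsum, hs.apply i k, hs.apply j k] at this; linarith
  have di := hJ.2.2.2 i
  have dj := hJ.2.2.2 j
  have dk := hJ.2.2.2 k
  have pij := hp i j
  have pik := hp i k
  have pjk := hp j k
  have lij := hle i j hij
  have lik := hle i k hik
  have ljk := hle j k hjk
  -- the test vector times `5m+δ`
  set y : Fin 3 → ℝ := fun l => if l = i then 1 else -((3 * m + δ) / (5 * m + δ)) with hy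
  have hyi : y i = 1 := by simp [hy]
  have hyj : y j = -((3 * m + δ) / (5 * m + δ)) := by simp [hy, hij.symm]
  have hyk : y k = -((3 * m + δ) / (5 * m + δ)) := by simp [hy, hik.symm]
  have hJy : ∀ l, (J *ᵥ y) l = J l i - (3 * m + δ) / (5 * m + δ) * (J l j + J l k) := by
    intro l
    show ∑ p, J l p * y p = _
    rw [hsum, hyi, hyj, hyk]; ring
  have hJi : (5 * m + δ) * (J *ᵥ y) i = 2 * m * (J i j + J i k) + (5 * m + δ) * dom J i := by
    rw [hJy, domi]; field_simp; ring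
  have hJj : (5 * m + δ) * (J *ᵥ y) j = 2 * m * J i j - (3 * m + δ) * (2 * J j k + dom J j) := by
    rw [hJy, domj, hs.apply i j]; field_simp; ring
  have hJk : (5 * m + δ) * (J *ᵥ y) k = 2 * m * J i k - (3 * m + δ) * (2 * J j k + dom J k) := by
    rw [hJy, domk, hs.apply i k, hs.apply j k]; field_simp; ring
  have bi : |(5 * m + δ) * (J *ᵥ y) i| ≤ (m + δ) * (4 * m + δ) ∧
      ((m + δ) * (4 * m + δ) ≤ |(5 * m + δ) * (J *ᵥ y) i| → J i j = m ∧ J i k = m ∧ dom J i = δ) := by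
    have h0 : 0 ≤ (5 * m + δ) * (J *ᵥ y) i := by
      rw [hJi]; have := di.1; positivity
    rw [abs_of_nonneg h0, hJi]
    have a1 : 2 * m * (J i j + J i k) ≤ 2 * m * (2 * m) :=
      mul_le_mul_of_nonneg_left (by linarith) (by linarith)
    have a2 : (5 * m + δ) * dom J i ≤ (5 * m + δ) * δ := mul_le_mul_of_nonneg_left di.2 hD.le
    refine ⟨by linarith, fun h => ?_⟩
    have a3 : 2 * m * (2 * m - (J i j + J i k)) ≤ 0 := by linarith
    have a4 : (5 * m + δ) * (δ - dom J i) ≤ 0 := by linarith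
    have a5 : 2 * m - (J i j + J i k) ≤ 0 := by
      by_contra hc; push Not at hc
      have := mul_pos (show 0 < 2 * m by linarith) hc
      linarith
    have a6 : δ - dom J i ≤ 0 := by
      by_contra hc; push Not at hc
      have := mul_pos hD hc
      linarith
    exact ⟨by linarith, by linarith, by linarith [di.2]⟩
  have bj : ∀ x d : ℝ, J j k ≤ x → x ≤ m → 0 ≤ d → d ≤ δ →
      |2 * m * x - (3 * m + δ) * (2 * J j k + d)| ≤ (m + δ) * (4 * m + δ) ∧
      ((m + δ) * (4 * m + δ) ≤ |2 * m * x - (3 * m + δ) * (2 * J j k + d)| →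
        J j k = m ∧ d = δ) := by
    intro x d hx1 hx2 hd0 hd1
    have u1 : 2 * m * x - (3 * m + δ) * (2 * J j k + d) < (m + δ) * (4 * m + δ) := by
      have a1 : 2 * m * x ≤ 2 * m * m := mul_le_mul_of_nonneg_left hx2 (by linarith)
      have a2 : 0 < (3 * m + δ) * (2 * J j k + d) := by positivity
      nlinarith
    have a1 : 2 * m * J j k ≤ 2 * m * x := mul_le_mul_of_nonneg_left hx1 (by linarith)
    have a2 : (3 * m + δ) * d ≤ (3 * m + δ) * δ := mul_le_mul_of_nonneg_left hd1 (by linarith)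
    have a3 : (4 * m + 2 * δ) * J j k ≤ (4 * m + 2 * δ) * m :=
      mul_le_mul_of_nonneg_left ljk (by linarith)
    constructor
    · rw [abs_le]; constructor <;> nlinarith
    · intro h
      rcases le_abs.mp h with h | h
      · linarith
      · have a4 : (4 * m + 2 * δ) * (m - J j k) ≤ 0 := by nlinarith
        have a5 : (3 * m + δ) * (δ - d) ≤ 0 := by nlinarith
        have a6 : m - J j k ≤ 0 := by
          by_contra hc; push Not at hc
          have := mul_pos (show 0 < 4 * m + 2 * δ by linarith) hc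
          linarith
        have a7 : δ - d ≤ 0 := by
          by_contra hc; push Not at hc
          have := mul_pos (show 0 < 3 * m + δ by linarith) hc
          linarith
        exact ⟨by linarith, by linarith⟩
  have bj1 := bj (J i j) (dom J j) h1 lij dj.1 dj.2
  have bk1 := bj (J i k) (dom J k) h2 lik dk.1 dk.2
  rw [← hJj] at bj1
  rw [← hJk] at bk1
  set c : ℝ := (m + δ) * (4 * m + δ) with hc
  have hcp : 0 < c := by positivity
  have h1' := test_vec (n := 3) le_rfl hJ i y hyi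
  rw [hsum] at h1'
  have hrow : |J⁻¹ i i| + |J⁻¹ i j| + |J⁻¹ i k| ≤ infNorm J⁻¹ := by
    have := row_le J⁻¹ i
    rwa [hsum] at this
  have prod_le : ∀ K z : ℝ, |z| ≤ c → K * z ≤ |K| * c := fun K z hz => by
    calc K * z ≤ |K * z| := le_abs_self _
      _ = |K| * |z| := abs_mul _ _
      _ ≤ |K| * c := mul_le_mul_of_nonneg_left hz (abs_nonneg _)
  have p1 := prod_le (J⁻¹ i i) _ bi.1
  have p2 := prod_le (J⁻¹ i j) _ bj1.1
  have p3 := prod_le (J⁻¹ i k) _ bk1.1
  have hmain : 5 * m + δ = J⁻¹ i i * ((5 * m + δ) * (J *ᵥ y) i) +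
      J⁻¹ i j * ((5 * m + δ) * (J *ᵥ y) j) + J⁻¹ i k * ((5 * m + δ) * (J *ᵥ y) k) := by
    linear_combination (5 * m + δ) * h1'
  have hLc : L * c = 5 * m + δ := hLD
  constructor
  · have : L * c ≤ infNorm J⁻¹ * c := by
      have : (|J⁻¹ i i| + |J⁻¹ i j| + |J⁻¹ i k|) * c ≤ infNorm J⁻¹ * c :=
        mul_le_mul_of_nonneg_right hrow hcp.le
      linarith
    exact le_of_mul_le_mul_right this hcp
  · intro heq
    rw [heq] at hrow
    have hrow2 : (|J⁻¹ i i| + |J⁻¹ i j| + |J⁻¹ i k|) * c ≤ L * c :=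
      mul_le_mul_of_nonneg_right hrow hcp.le
    have q1 : J⁻¹ i i * ((5 * m + δ) * (J *ᵥ y) i) = |J⁻¹ i i| * c := by linarith
    have q2 : J⁻¹ i j * ((5 * m + δ) * (J *ᵥ y) j) = |J⁻¹ i j| * c := by linarith
    have q3 : J⁻¹ i k * ((5 * m + δ) * (J *ᵥ y) k) = |J⁻¹ i k| * c := by linarith
    have tight : ∀ K z : ℝ, K ≠ 0 → K * z = |K| * c → c ≤ |z| := by
      intro K z hK hz
      have : |K| * c ≤ |K| * |z| := by
        rw [← hz, ← abs_mul]; exact le_abs_self _
      exact le_of_mul_le_mul_left this (abs_pos.mpr hK)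
    have hKii := inv_diag_pos (n := 3) le_rfl hJ i
    obtain ⟨e1, e2, e3⟩ := bi.2 (tight _ _ hKii.ne' q1)
    -- off-diagonal entries of the inverse are non-zero
    have hcol := mul_col (n := 3) le_rfl hJ i
    have cj := congrFun hcol j
    have ck := congrFun hcol k
    have cj' : J j i * J⁻¹ i i + J j j * J⁻¹ j i + J j k * J⁻¹ k i = 0 := by
      have : ∑ l, J j l * J⁻¹ l i = 0 := by
        rw [Pi.single_eq_of_ne hij.symm] at cj; exact cj
      rwa [hsum] at this
    have ck' : J k i * J⁻¹ i i + J k j * J⁻¹ j i + J k k * J⁻¹ k i = 0 := by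
      have : ∑ l, J k l * J⁻¹ l i = 0 := by
        rw [Pi.single_eq_of_ne hik.symm] at ck; exact ck
      rwa [hsum] at this
    rw [hs.apply i j, e1] at cj'
    rw [hs.apply i k, hs.apply j k, e2] at ck'
    have hmK : 0 < m * J⁻¹ i i := mul_pos hm hKii
    have hjj : J j k < J j j := by
      have := dj.1; linarith
    have hkk : J j k < J k k := by
      have := dk.1; linarith
    have nj : J⁻¹ i j ≠ 0 := by
      rw [inv_symm hJ i j]
      intro h0
      rw [h0] at cj' ck'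
      have h5 : (J k k - J j k) * J⁻¹ k i = 0 := by linarith
      rcases mul_eq_zero.mp h5 with h | h
      · linarith
      · rw [h] at cj'; linarith
    have nk : J⁻¹ i k ≠ 0 := by
      rw [inv_symm hJ i k]
      intro h0
      rw [h0] at cj' ck'
      have h5 : (J j j - J j k) * J⁻¹ j i = 0 := by linarith
      rcases mul_eq_zero.mp h5 with h | h
      · linarith
      · rw [h] at cj'; linarith
    obtain ⟨e4, e5⟩ := bj1.2 (tight _ _ nj q2)
    obtain ⟨_, e6⟩ := bk1.2 (tight _ _ nk q3)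
    apply eq_S le_rfl hJ
    have r1 : rho J i = 2 * (m * ((3 : ℕ) - 1)) + δ := by
      rw [rho_eq]; push_cast; linarith
    have r2 : rho J j = 2 * (m * ((3 : ℕ) - 1)) + δ := by
      rw [rho_eq]; push_cast; linarith
    have r3 : rho J k = 2 * (m * ((3 : ℕ) - 1)) + δ := by
      rw [rho_eq]; push_cast; linarith
    intro l
    have : l ∈ ({i, j, k} : Finset (Fin 3)) := by rw [← huniv]; exact mem_univ l
    simp only [Finset.mem_insert, Finset.mem_singleton] at this
    rcases this with h | h | h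
    · rw [h]; exact r1
    · rw [h]; exact r2
    · rw [h]; exact r3

theorem norm_S {n : ℕ} (hn : 3 ≤ n) {m δ : ℝ} (hm : 0 < m) (hδ : 0 ≤ δ) :
    infNorm (Smat n (m * (n - 2) + δ) m)⁻¹ = Lval n m δ := by
  have hn' : (3 : ℝ) ≤ n := by exact_mod_cast hn
  have h1 : 0 < m * ((n : ℝ) - 2) + δ := by nlinarith
  set α : ℝ := m * (n - 2) + δ with hα
  have h2 : 0 < α + m * n := by nlinarith
  have hinv : (Smat n α m)⁻¹ = α⁻¹ • (1 : Matrix (Fin n) (Fin n) ℝ) -
      (m / (α * (α + m * n))) • Matrix.of (fun _ _ => (1 : ℝ)) := by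
    apply Matrix.inv_eq_right_inv
    ext i j
    unfold Smat
    rw [Matrix.mul_apply]
    simp only [Matrix.add_apply, Matrix.sub_apply, Matrix.smul_apply, Matrix.one_apply,
      Matrix.of_apply, smul_eq_mul, mul_one]
    have : ∀ k, (α * (if i = k then (1 : ℝ) else 0) + m) *
        (α⁻¹ * (if k = j then (1 : ℝ) else 0) - m / (α * (α + m * n))) =
        (if i = k then α * (α⁻¹ * (if k = j then (1 : ℝ) else 0) - m / (α * (α + m * n))) else 0) +
        (if k = j then m * α⁻¹ else 0) - m * (m / (α * (α + m * n))) := by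
      intro k
      split_ifs <;> ring
    rw [Finset.sum_congr rfl (fun k _ => this k), Finset.sum_sub_distrib, Finset.sum_add_distrib,
      Finset.sum_ite_eq, Finset.sum_ite_eq', Finset.sum_const, Finset.card_univ, Fintype.card_fin,
      nsmul_eq_mul, if_pos (mem_univ _), if_pos (mem_univ _)]
    split_ifs
    · field_simp; ring
    · field_simp; ring
  have hrow : ∀ i, ∑ j, |(Smat n α m)⁻¹ i j| = Lval n m δ := by
    intro i
    rw [hinv, ← Finset.add_sum_erase univ _ (mem_univ i)]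
    have e1 : |(α⁻¹ • (1 : Matrix (Fin n) (Fin n) ℝ) -
        (m / (α * (α + m * n))) • Matrix.of (fun _ _ => (1 : ℝ)) :
          Matrix (Fin n) (Fin n) ℝ) i i| =
        α⁻¹ - m / (α * (α + m * n)) := by
      simp only [Matrix.sub_apply, Matrix.smul_apply, Matrix.one_apply_eq, Matrix.of_apply,
        smul_eq_mul, mul_one]
      apply abs_of_nonneg
      rw [sub_nonneg, div_le_iff₀ (by positivity)]
      have : α⁻¹ * (α * (α + m * n)) = α + m * n := by field_simp
      rw [this]; nlinarith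
    have e2 : ∀ j ∈ univ.erase i, |(α⁻¹ • (1 : Matrix (Fin n) (Fin n) ℝ) -
        (m / (α * (α + m * n))) • Matrix.of (fun _ _ => (1 : ℝ)) :
          Matrix (Fin n) (Fin n) ℝ) i j| =
        m / (α * (α + m * n)) := by
      intro j hj
      simp only [Matrix.sub_apply, Matrix.smul_apply, Matrix.of_apply,
        smul_eq_mul, mul_one]
      rw [Matrix.one_apply_ne (Finset.ne_of_mem_erase hj).symm, mul_zero, zero_sub, abs_neg]
      exact abs_of_nonneg (by positivity)
    rw [e1, Finset.sum_congr rfl e2, Finset.sum_const, Finset.card_erase_of_mem (mem_univ i),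
      Finset.card_univ, Fintype.card_fin, nsmul_eq_mul, Nat.cast_sub (by omega)]
    unfold Lval
    rw [← hα]
    push_cast
    field_simp
    ring
  unfold infNorm
  haveI : Nonempty (Fin n) := ⟨⟨0, by omega⟩⟩
  simp only [hrow]
  exact ciSup_const

/-- Full answer: every matrix of the class is invertible, the norm of the inverse is at least the
stated value, with equality exactly for `S`. -/
theorem result (n : ℕ) (hn : 3 ≤ n) (m δ : ℝ) (hm : 0 < m) (hδ : 0 ≤ δ)
    (J : Matrix (Fin n) (Fin n) ℝ) (hJ : Cls n m δ J) :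
    IsUnit J ∧
    (m * (n - 2) + δ + 2 * m * (n - 1)) / ((m * (n - 2) + δ) * (m * (n - 2) + δ + m * n)) ≤
      infNorm J⁻¹ ∧
    (infNorm J⁻¹ =
      (m * (n - 2) + δ + 2 * m * (n - 1)) / ((m * (n - 2) + δ) * (m * (n - 2) + δ + m * n)) ↔
      J = Smat n (m * (n - 2) + δ) m) := by
  refine ⟨(Matrix.isUnit_iff_isUnit_det J).mpr (isUnit_det hn hJ), ?_⟩
  have hback : J = Smat n (m * (n - 2) + δ) m → infNorm J⁻¹ = Lval n m δ := by
    intro h; rw [h]; exact norm_S hn hm hδ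
  have hmain : Lval n m δ ≤ infNorm J⁻¹ ∧
      (infNorm J⁻¹ = Lval n m δ → J = Smat n (m * (n - 2) + δ) m) := by
    rcases Nat.lt_or_ge n 4 with h4 | h4
    · have h3 : n = 3 := by omega
      subst h3
      have hs := hJ.1
      rcases le_total (J 1 2) (J 0 1) with a | a
      · rcases le_total (J 1 2) (J 0 2) with b | b
        · exact main_three hm hδ hJ 0 1 2 (by decide) (by decide) (by decide) a b
        · exact main_three hm hδ hJ 1 0 2 (by decide) (by decide) (by decide)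
            (by rw [hs.apply 0 1]; linarith) b
      · rcases le_total (J 0 1) (J 0 2) with b | b
        · exact main_three hm hδ hJ 2 0 1 (by decide) (by decide) (by decide)
            (by rw [hs.apply 0 2]; exact b) (by rw [hs.apply 1 2]; exact a)
        · exact main_three hm hδ hJ 1 0 2 (by decide) (by decide) (by decide)
            (by rw [hs.apply 0 1]; exact b) (by linarith)
    · exact main_four h4 hm hδ hJ
  exact ⟨hmain.1, hmain.2, hback⟩

end Pool.Agent.Results.MP_7ad8d2_an.InverseNorm
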